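import Mathlib
import Pool.Agent.Helper79.JC.Defs

/-!
# JC: extension of homomorphisms to `M = Ω ⊗ F`, the twist of a place by an automorphism of `Ω`
-/

set_option linter.unusedSectionVars false

namespace Pool.Agent.Helper67.JC

open VC VF Function Pool.Agent.Helper21.TO Pool.Agent.Helper15.GT Pool.Agent.Helper15.KP
open Pool.Agent.Helper98.JC Pool.Agent.Helper79.JC
open scoped TensorProduct

universe u

section

variable {k K F : Type u} [Field k] [Field K] [Algebra k K] [Field F] [Algebra k F]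
  {κ : K →ₐ[k] F} {Ω M : Type u} [Field Ω] [Algebra k Ω] [Algebra K Ω] [Field M] [Algebra k M] [Algebra Ω M]

/-- Ring homomorphisms from `Ω` and `F` which agree on `K` extend to `M`. -/
theorem BC.exists_lift (D : BC κ Ω M) {B : Type u} [CommRing B] (α : Ω →+* B) (σ : F →+* B)
    (h : ∀ a : K, α (algebraMap K Ω a) = σ (κ a)) :
    ∃ ψ : M →+* B, (∀ a : Ω, ψ (algebraMap Ω M a) = α a) ∧ ∀ f : F, ψ (D.j f) = σ f := by
  classical
  let _ : Algebra K F := κ.toRingHom.toAlgebra
  let _ : Algebra K M := ((algebraMap Ω M).comp (algebraMap K Ω)).toAlgebra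
  have : IsScalarTower K Ω M := IsScalarTower.of_algebraMap_eq fun _ => rfl
  let jK : F →ₐ[K] M := { D.j.toRingHom with commutes' := fun a => D.hj a }
  let e : Ω ⊗[K] F →ₐ[Ω] M := Algebra.TensorProduct.lift (Algebra.ofId Ω M) jK (fun _ _ => Commute.all _ _)
  have he : ∀ (a : Ω) (f : F), e (a ⊗ₜ f) = algebraMap Ω M a * D.j f := fun a f =>
    Algebra.TensorProduct.lift_tmul _ _ _ a f
  have hinj : Injective e := by
    rw [injective_iff_map_eq_zero]
    intro t ht
    let b := Module.Basis.ofVectorSpace K F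
    let b' := b.baseChange Ω
    have h1 : t = ∑ i ∈ (b'.repr t).support, b'.repr t i • b' i := (b'.linearCombination_repr t).symm
    obtain ⟨s, hs⟩ : ∃ s, s = (b'.repr t).support := ⟨_, rfl⟩
    have h2 : ∀ i ∈ s, b'.repr t i = 0 := by
      let n := s.card
      let q := s.equivFin
      have h3 := D.lin n (fun l => b (q.symm l)) (by
        intro c hc
        have h4 := b.linearIndependent
        rw [linearIndependent_iff'] at h4
        funext l
        have h5 := h4 s (fun i => if hi : i ∈ s then c (q ⟨i, hi⟩) else 0) (by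
          rw [← hc, ← Finset.sum_attach s]
          refine Fintype.sum_equiv q _ _ fun i => ?_
          rw [dif_pos i.2, Algebra.smul_def, Equiv.symm_apply_apply]
          rfl)
        have h6 := h5 (q.symm l) (q.symm l).2
        rw [dif_pos (q.symm l).2] at h6
        simpa using h6) (fun l => b'.repr t (q.symm l)) (by
        have h7 := congrArg e h1
        rw [ht, ← hs, map_sum, ← Finset.sum_attach s] at h7
        rw [h7]
        refine (Fintype.sum_equiv q _ _ fun i => ?_).symm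
        rw [Equiv.symm_apply_apply, map_smul, Algebra.smul_def]
        congr 1
        rw [Module.Basis.baseChange_apply, he, map_one, one_mul])
      intro i hi
      have h8 := congrFun h3 (q ⟨i, hi⟩)
      simpa using h8
    rw [h1, ← hs]
    exact Finset.sum_eq_zero fun i hi => by rw [h2 i hi, zero_smul]
  have hsurj : Surjective e := by
    intro m
    have h1 : m ∈ Algebra.adjoin Ω (Set.range D.j) := by
      rw [D.gen]
      trivial
    have h2 : Algebra.adjoin Ω (Set.range D.j) ≤ e.range := by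
      rw [Algebra.adjoin_le_iff]
      rintro _ ⟨f, rfl⟩
      exact ⟨1 ⊗ₜ f, by
        change e (1 ⊗ₜ f) = D.j f
        rw [he, map_one, one_mul]⟩
    exact h2 h1
  let E : Ω ⊗[K] F ≃ₐ[Ω] M := AlgEquiv.ofBijective e ⟨hinj, hsurj⟩
  let _ : Algebra K B := (α.comp (algebraMap K Ω)).toAlgebra
  let αK : Ω →ₐ[K] B := { α with commutes' := fun _ => rfl }
  let σK : F →ₐ[K] B := { σ with commutes' := fun a => (h a).symm }
  let g : Ω ⊗[K] F →ₐ[K] B := Algebra.TensorProduct.lift αK σK (fun _ _ => Commute.all _ _)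
  have hg : ∀ (a : Ω) (f : F), g (a ⊗ₜ f) = α a * σ f := fun a f => Algebra.TensorProduct.lift_tmul _ _ _ a f
  have hE : ∀ t, E.symm (e t) = t := fun t => E.symm_apply_apply t
  refine ⟨g.toRingHom.comp E.symm.toRingEquiv.toRingHom, fun a => ?_, fun f => ?_⟩
  · change g (E.symm (algebraMap Ω M a)) = α a
    have h1 : algebraMap Ω M a = e (a ⊗ₜ 1) := by rw [he, map_one, mul_one]
    rw [h1, hE, hg, map_one, mul_one]
  · change g (E.symm (D.j f)) = σ f
    have h1 : D.j f = e (1 ⊗ₜ f) := by rw [he, map_one, one_mul]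
    rw [h1, hE, hg, map_one, one_mul]

/-- Ring homomorphisms from `M` are determined by their restrictions to `Ω` and `F`. -/
theorem BC.hom_ext (D : BC κ Ω M) {B : Type u} [CommRing B] {ψ ψ' : M →+* B}
    (h1 : ∀ a : Ω, ψ (algebraMap Ω M a) = ψ' (algebraMap Ω M a)) (h2 : ∀ f : F, ψ (D.j f) = ψ' (D.j f)) : ψ = ψ' := by
  ext m
  have hm : m ∈ Algebra.adjoin Ω (Set.range D.j) := by
    rw [D.gen]
    trivial
  induction hm using Algebra.adjoin_induction with
  | mem x hx =>
    obtain ⟨f, rfl⟩ := hx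
    exact h2 f
  | algebraMap r => exact h1 r
  | add x y _ _ hx hy => rw [map_add, map_add, hx, hy]
  | mul x y _ _ hx hy => rw [map_mul, map_mul, hx, hy]

/-- The automorphism of `M` given by an automorphism of `Ω`. -/
theorem BC.exists_tw (D : BC κ Ω M) (τ : Ω ≃ₐ[K] Ω) : ∃ Θ : M ≃+* M,
    (∀ a : Ω, Θ (algebraMap Ω M a) = algebraMap Ω M (τ a)) ∧ ∀ f : F, Θ (D.j f) = D.j f := by
  have key : ∀ τ : Ω ≃ₐ[K] Ω, ∃ ψ : M →+* M,
      (∀ a : Ω, ψ (algebraMap Ω M a) = algebraMap Ω M (τ a)) ∧ ∀ f : F, ψ (D.j f) = D.j f := by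
    intro τ
    refine BC.exists_lift D ((algebraMap Ω M).comp (τ : Ω →+* Ω)) (D.j : F →+* M) fun a => ?_
    change algebraMap Ω M (τ (algebraMap K Ω a)) = D.j (κ a)
    rw [τ.commutes, D.hj]
  obtain ⟨ψ, h1, h2⟩ := key τ
  obtain ⟨ψ', h1', h2'⟩ := key τ.symm
  refine ⟨RingEquiv.ofRingHom ψ ψ' ?_ ?_, h1, h2⟩
  · refine BC.hom_ext D (fun a => ?_) fun f => ?_
    · change ψ (ψ' (algebraMap Ω M a)) = algebraMap Ω M a
      rw [h1', h1, AlgEquiv.apply_symm_apply]
    · change ψ (ψ' (D.j f)) = D.j f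
      rw [h2', h2]
  · refine BC.hom_ext D (fun a => ?_) fun f => ?_
    · change ψ' (ψ (algebraMap Ω M a)) = algebraMap Ω M a
      rw [h1, h1', AlgEquiv.symm_apply_apply]
    · change ψ' (ψ (D.j f)) = D.j f
      rw [h2, h2']

end

/-- The twist of a place by a semilinear automorphism. -/
theorem exists_twist {k Ω M : Type u} [Field k] [Field Ω] [Field M] [Algebra k Ω] [Algebra Ω M] [Algebra k M]
    [IsScalarTower k Ω M] (τ : Ω ≃ₐ[k] Ω) (Θ : M ≃+* M) (hΘ : ∀ a : Ω, Θ (algebraMap Ω M a) = algebraMap Ω M (τ a))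
    (x : RPl Ω M) : ∃ x' : RPl Ω M, ∀ (P : RPl k Ω) (z : M),
      Θ z ∈ (cmp x' P).ring ↔ z ∈ (cmp x (P.comap (τ : Ω →ₐ[k] Ω))).ring := by
  have hΘ' : ∀ a : Ω, Θ.symm (algebraMap Ω M a) = algebraMap Ω M (τ.symm a) := by
    intro a
    rw [RingEquiv.symm_apply_eq, hΘ, AlgEquiv.apply_symm_apply]
  have hn : ∀ z : M, z ∈ (x.ring.comap (Θ.symm : M →+* M)).nonunits ↔ Θ.symm z ∈ x.ring.nonunits := by
    intro z
    rw [ValuationSubring.mem_nonunits_iff_or, ValuationSubring.mem_nonunits_iff_or, ValuationSubring.mem_comap]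
    have h1 : (Θ.symm : M →+* M) z⁻¹ = (Θ.symm z)⁻¹ := map_inv₀ Θ.symm z
    rw [h1, EmbeddingLike.map_eq_zero_iff]
  let x' : RPl Ω M :=
    { ring := x.ring.comap (Θ.symm : M →+* M)
      alg := fun c => by
        rw [ValuationSubring.mem_comap]
        change Θ.symm (algebraMap Ω M c) ∈ x.ring
        rw [hΘ']
        exact x.alg _
      res := fun z hz => by
        rw [ValuationSubring.mem_comap] at hz
        obtain ⟨c, hc⟩ := x.res _ hz
        refine ⟨τ c, ?_⟩
        rw [hn, map_sub, hΘ', AlgEquiv.symm_apply_apply]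
        exact hc }
  have hR : ∀ (z : M) (a : Ω), Rs x' (Θ z) (τ a) ↔ Rs x z a := by
    intro z a
    unfold Rs
    change Θ z - algebraMap Ω M (τ a) ∈ (x.ring.comap (Θ.symm : M →+* M)).nonunits ↔ _
    rw [hn, map_sub, hΘ', AlgEquiv.symm_apply_apply, RingEquiv.symm_apply_apply]
  refine ⟨x', fun P z => ?_⟩
  change Θ z ∈ cring x' P ↔ z ∈ cring x (P.comap (τ : Ω →ₐ[k] Ω))
  rw [mem_cring, mem_cring]
  constructor
  · rintro ⟨a, ha, ha'⟩
    refine ⟨τ.symm a, ?_, ?_⟩
    · rw [← hR, AlgEquiv.apply_symm_apply]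
      exact ha
    · change τ (τ.symm a) ∈ P.ring
      rw [AlgEquiv.apply_symm_apply]
      exact ha'
  · rintro ⟨a, ha, ha'⟩
    exact ⟨τ a, (hR z a).mpr ha, ha'⟩

/-- [TW] -/
theorem tw : StmtTw.{u} := by
  intro k K F _ _ _ _ _ _ _ κ Ω M _ _ _ _ _ _ _ _ _ _ _ D τ x
  obtain ⟨Θ, h1, h2⟩ := BC.exists_tw D τ
  obtain ⟨x', h⟩ := exists_twist (τ.restrictScalars k) Θ h1 x
  refine ⟨x', fun P => ?_⟩
  ext z
  have h3 := h P (D.j z)
  rw [h2] at h3
  exact h3.symm

end Pool.Agent.Helper67.JC
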