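import Mathlib
import Pool.Agent.Helper67.JC.Tw
import Pool.Agent.Helper21.TB.Tra
import Pool.Agent.Helper83.QF.Sum

/-!
# JC: descent of a harmonic function to the base
-/

set_option linter.unusedSectionVars false

namespace Pool.Agent.Helper67.JC

open VC VF Function Pool.Agent.Helper21.TO Pool.Agent.Helper21.TB Pool.Agent.Helper15.GT Pool.Agent.Helper15.KP
open Pool.Agent.Helper98.JC Pool.Agent.Helper79.JC
open Pool.Agent.Helper51.VN (Harm)

universe u

lemma isRes_cm {k : Type u} [Field k] [IsAlgClosed k] [CharZero k] {K L : Type u} [Field K] [Algebra k K] [Field L]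
    [Algebra k L] (hK : IsFunctionField k K) (hL : IsFunctionField k L) (φ : K →ₐ[k] L) (w : Place k L) (z : K) (c : k) :
    IsRes (Place.comap hK hL φ w) z c ↔ IsRes w (φ z) c := by
  have h := isRes_pl hK φ (rp hL w) z c
  exact h

/-- The Galois group is transitive on the places over a place of the base. -/
theorem gal_trans {k : Type u} [Field k] [IsAlgClosed k] [CharZero k] {K L : Type u} [Field K] [Algebra k K] [Field L]
    [Algebra k L] [Algebra K L] [IsScalarTower k K L] [FiniteDimensional K L] [IsGalois K L]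
    (hK : IsFunctionField k K) (hL : IsFunctionField k L) {v v' : Place k L} (h : VQ.res hK hL v = VQ.res hK hL v') :
    ∃ σ : L ≃ₐ[K] L, Place.comap hL hL ((σ.restrictScalars k : L ≃ₐ[k] L) : L →ₐ[k] L) v = v' := by
  classical
  by_contra hcon
  push Not at hcon
  let c : (L ≃ₐ[K] L) → L →ₐ[k] L := fun σ => ((σ.restrictScalars k : L ≃ₐ[k] L) : L →ₐ[k] L)
  have hne : ∀ ρ τ : L ≃ₐ[K] L, Place.comap hL hL (c ρ) v' ≠ Place.comap hL hL (c τ) v := by
    intro ρ τ h1
    apply hcon (ρ.symm.trans τ)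
    ext z
    have h2 : ρ.symm z ∈ (Place.comap hL hL (c ρ) v').ring ↔ ρ.symm z ∈ (Place.comap hL hL (c τ) v).ring := by rw [h1]
    change ρ (ρ.symm z) ∈ v'.ring ↔ τ (ρ.symm z) ∈ v.ring at h2
    rw [AlgEquiv.apply_symm_apply] at h2
    exact h2.symm
  obtain ⟨y, hy⟩ := wa hL (Set.range (fun τ => Place.comap hL hL (c τ) v) ∪
      Set.range (fun τ => Place.comap hL hL (c τ) v'))
    ((Set.finite_range _).union (Set.finite_range _)) (fun _ => 1) (fun _ => one_ne_zero)
    (fun w => if w ∈ Set.range (fun τ => Place.comap hL hL (c τ) v) then 1 else 0)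
  have h1 : ∀ τ : L ≃ₐ[K] L, IsRes v (τ y) 1 := by
    intro τ
    have h2 := hy (Place.comap hL hL (c τ) v) (Or.inl ⟨τ, rfl⟩)
    have e : (if Place.comap hL hL (c τ) v ∈ Set.range (fun τ => Place.comap hL hL (c τ) v) then (1 : k) else 0) = 1 :=
      if_pos ⟨τ, rfl⟩
    rw [one_mul, e, isRes_cm] at h2
    exact h2
  have h2 : ∀ τ : L ≃ₐ[K] L, IsRes v' (τ y) 0 := by
    intro τ
    have h3 := hy (Place.comap hL hL (c τ) v') (Or.inr ⟨τ, rfl⟩)
    have e : (if Place.comap hL hL (c τ) v' ∈ Set.range (fun τ => Place.comap hL hL (c τ) v) then (1 : k) else 0) = 0 := by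
      apply if_neg
      rintro ⟨ρ, hρ⟩
      exact hne τ ρ hρ.symm
    rw [one_mul, e, isRes_cm] at h3
    exact h3
  have h3 : IsRes v (∏ τ : L ≃ₐ[K] L, τ y) 1 := by
    have := isRes_prodB (v := v) Finset.univ (fun τ : L ≃ₐ[K] L => τ y) (fun _ => 1) (fun τ _ => h1 τ)
    rwa [Finset.prod_const_one] at this
  have h4 : IsRes v' (∏ τ : L ≃ₐ[K] L, τ y) 0 := by
    have := isRes_prodB (v := v') Finset.univ (fun τ : L ≃ₐ[K] L => τ y) (fun _ => 0) (fun τ _ => h2 τ)
    have e : (∏ _τ : L ≃ₐ[K] L, (0 : k)) = 0 := Finset.prod_eq_zero (Finset.mem_univ 1) rfl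
    rwa [e] at this
  have h5 : (∏ τ : L ≃ₐ[K] L, τ y) = algebraMap K L (Algebra.norm K y) := (Algebra.norm_eq_prod_automorphisms K y).symm
  rw [h5] at h3 h4
  have h6 : IsRes (VQ.res hK hL v) (Algebra.norm K y) 1 := (isRes_cm hK hL _ v _ _).mpr h3
  have h7 : IsRes (VQ.res hK hL v') (Algebra.norm K y) 0 := (isRes_cm hK hL _ v' _ _).mpr h4
  rw [h] at h6
  exact one_ne_zero (h6.unique h7)

/-- The trivial place. -/
def triv (Ω : Type u) [Field Ω] : RPl Ω Ω where
  ring := ⊤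
  alg _ := ValuationSubring.mem_top _
  res z _ := ⟨z, by
    rw [Algebra.algebraMap_self_apply, sub_self]
    exact nonunits_zero⟩

/-- [DSC] -/
theorem dsc_of (hS : StmtSec.{u}) : StmtDsc.{u} := by
  classical
  intro k K F _ _ _ _ _ _ _ κ Ω M _ _ _ _ _ _ _ _ _ _ _ hK D v hv hind
  obtain ⟨x0, -⟩ := exists_lift (Algebra.ofId Ω M) (triv Ω)
  obtain ⟨K', _, _, _, _, _, _, hK', e, he, ν', hν', hsec⟩ := hS k K Ω M hK _ (hv.comap D.j) x0
  have hv' : ∀ (x : RPl Ω M) (P : RPl k Ω), v ((cmp x P).comap D.j) = ν' (P.pl hK' e) := fun x P => by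
    rw [hind x x0 P]
    exact hsec P
  let _ : Algebra K' Ω := e.toRingHom.toAlgebra
  have : IsScalarTower K K' Ω := IsScalarTower.of_algebraMap_eq fun a => (he a).symm
  have : IsAlgClosure K Ω := ⟨inferInstance, inferInstance⟩
  have : Normal K Ω := IsAlgClosure.normal K Ω
  have hA : ∀ (P : RPl k Ω) (σ : K' ≃ₐ[K] K'),
      ν' (P.pl hK' (e.comp ((σ.restrictScalars k : K' ≃ₐ[k] K') : K' →ₐ[k] K'))) = ν' (P.pl hK' e) := by
    intro P σ
    let τ : Ω ≃ₐ[K] Ω := σ.liftNormal Ω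
    have hτ : ∀ z : K', τ (e z) = e (σ z) := fun z => σ.liftNormal_commutes Ω z
    obtain ⟨x', hx'⟩ := tw k K F κ Ω M D τ x0
    have h1 := hv' x0 (P.comap ((τ.restrictScalars k : Ω ≃ₐ[k] Ω) : Ω →ₐ[k] Ω))
    rw [hx', hv' x'] at h1
    rw [h1, pl_comap]
    congr 2
    ext z
    exact (hτ z).symm
  have hB : ∀ Q Q' : Place k K', VQ.res hK hK' Q = VQ.res hK hK' Q' → ν' Q = ν' Q' := by
    intro Q Q' h
    obtain ⟨σ, hσ⟩ := gal_trans hK hK' h
    obtain ⟨P, hP⟩ := exists_lift e (rp hK' Q)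
    have h1 : P.pl hK' e = Q := by
      ext z
      have h2 : z ∈ (P.comap e).ring ↔ z ∈ (rp hK' Q).ring := by rw [hP]
      exact h2
    have h3 := hA P σ
    rw [h1] at h3
    rw [← h3, ← hσ]
    congr 1
    ext z
    have h2 : σ z ∈ (P.comap e).ring ↔ σ z ∈ (rp hK' Q).ring := by rw [hP]
    exact h2
  have hC : ∀ w : Place k K, ∃ Q : Place k K', VQ.res hK hK' Q = w := by
    intro w
    obtain ⟨P, hP⟩ := exists_lift (IsScalarTower.toAlgHom k K K') (rp hK w)
    refine ⟨P.pl hK' (AlgHom.id k K'), ?_⟩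
    ext z
    have h2 : z ∈ (P.comap (IsScalarTower.toAlgHom k K K')).ring ↔ z ∈ (rp hK w).ring := by rw [hP]
    exact h2
  choose Q hQ using hC
  have hν : ∀ Q' : Place k K', ν' (Q (VQ.res hK hK' Q')) = ν' Q' := fun Q' => hB _ _ (hQ _)
  refine ⟨fun w => ν' (Q w), ?_, fun x P => ?_⟩
  · intro f hf
    have hf' : algebraMap K K' f ≠ 0 := (_root_.map_ne_zero _).mpr hf
    refine Pool.Agent.Helper83.QF.kills_res hK hK' (fun w => ν' (Q w)) hf hf' ?_
    simp only [hν]
    exact hν' _ hf'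
  · rw [hv' x P, ← hν]
    congr 2
    ext z
    change e (algebraMap K K' z) ∈ P.ring ↔ algebraMap K Ω z ∈ P.ring
    rw [he]

end Pool.Agent.Helper67.JC
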